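import Pool.Agent.Helper2.EG.Stmts

set_option autoImplicit false

namespace Pool.Agent.Helper2.EG

theorem st_G5 : ST_G5 := by
  intro hBase hT5 hA n hn h5 hT
  obtain ⟨hMV, hLV, hB⟩ := hBase
  have hcop : n.Coprime 25 := by
    have h : n.Coprime 5 := ((Nat.Prime.coprime_iff_not_dvd (by norm_num)).2 h5).symm
    have := h.pow_right 2
    simpa using this
  obtain ⟨P, hP, hPm⟩ := hB 25 n 18 (by norm_num) hn hT (hA n hcop)
  refine hT5 n P hn (hMV n hn) hLV hP ?_
  unfold Nat.ModEq at hPm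
  omega

end Pool.Agent.Helper2.EG
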