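import Pool.Agent.Helper2.EG.Stmts

set_option autoImplicit false

namespace Pool.Agent.Helper2.EG

theorem st_HIT : ST_HIT := by
  intro hSTR hSTEP hLV m n τ hm hn hT hex
  obtain ⟨c, u0, hc, hu, hR⟩ := hex
  obtain ⟨q, u, hq1, hqn, hu0, hun, hqu, hd1, hd2, hqc, huu⟩ := hT c u0 hc hu
  obtain ⟨P, hP, hPe⟩ := hSTR hSTEP hLV n q u hn hq1 hqn hu0 hun hqu hd1 hd2
  refine ⟨P, hP, ?_⟩
  have e1 : n * (n + q) ≡ n * (n + c) [MOD m] :=
    (Nat.ModEq.refl n).mul ((Nat.ModEq.refl n).add hqc)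
  have e2 : n * (n + q) * (n * (n + q) + u) ≡ n * (n + c) * (n * (n + c) + u0) [MOD m] :=
    e1.mul (e1.add huu)
  have e3 : n * (n + q) * (n * (n + q) + u) * (n * (n + q) * (n * (n + q) + u) + q) ≡
      n * (n + c) * (n * (n + c) + u0) * (n * (n + c) * (n * (n + c) + u0) + c) [MOD m] :=
    e2.mul (e2.add hqc)
  have e4 : τ * (u * q ^ 2) ≡ τ * (u0 * c ^ 2) [MOD m] :=
    (Nat.ModEq.refl τ).mul (huu.mul (hqc.pow 2))
  have e5 : P * (u * q ^ 2) ≡ τ * (u * q ^ 2) [MOD m] := by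
    rw [hPe]
    exact (e3.trans hR.symm).trans e4.symm
  have hqm : q.Coprime m := by
    have := hqc.gcd_eq
    unfold Nat.Coprime at hc ⊢
    rw [this, hc]
  have hum : u.Coprime m := by
    have := huu.gcd_eq
    unfold Nat.Coprime at hu ⊢
    rw [this, hu]
  have hcop : (u * q ^ 2).Coprime m := hum.mul_left (hqm.pow_left 2)
  exact Nat.ModEq.cancel_right_of_coprime hcop.symm e5

end Pool.Agent.Helper2.EG
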